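import Pool.Agent.Q217.FG.Compl

/-!
# Fourteen nonterminals and twelve forbidding rules are enough

Every recursively enumerable language over a finite alphabet is generated by a generalized
one-sided forbidding grammar of degree `(2, 1)`, and by one of degree `(1, 2)`, with 14
nonterminals and at most 12 rules with a nonempty forbidding context.
-/

set_option autoImplicit false

namespace Pool.Agent.Results.MP_fc15dd_lc.BoundedGrammars

open Pool.Agent.Q217.FG

theorem result (T : Type) [Finite T] (L : Set (List T)) (hL : IsRE L) :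
    (∃ (N : Type) (_ : Fintype N) (G : OSF N T),
      Fintype.card N = 14 ∧ G.Degree 2 1 ∧ G.numForb ≤ 12 ∧ G.Lang = L) ∧
    (∃ (N : Type) (_ : Fintype N) (G : OSF N T),
      Fintype.card N = 14 ∧ G.Degree 1 2 ∧ G.numForb ≤ 12 ∧ G.Lang = L) := by
  constructor
  · obtain ⟨G, h1, h2, h3⟩ := exists_grammar hL
    exact ⟨NT, inferInstance, G, card_NT, h1, h2, h3⟩
  · obtain ⟨G, h1, h2, h3⟩ := exists_grammar hL.rev
    refine ⟨NT, inferInstance, mirror G, card_NT, degree_mirror h1, ?_, ?_⟩
    · rw [numForb_mirror]; exact h2
    · ext w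
      rw [mem_mirror, h3]
      simp

end Pool.Agent.Results.MP_fc15dd_lc.BoundedGrammars
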